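import Pool.Agent.Helper66.CW.Defs

/-!
# CW, block B6: changing the signs of a thin set of primes
-/

set_option autoImplicit false
set_option linter.unusedSectionVars false

namespace Pool.Agent.Helper66.CW

open Finset Filter Pool.Agent.Helper66.MB

/-! ### periodic factors -/

private theorem roots52 (q : ℕ) (hq : 0 < q) (m : ℤ) :
    ∑ j ∈ range q, Complex.exp (2 * Real.pi * Complex.I * (m : ℂ) * ((j : ℂ) / q)) = if (q : ℤ) ∣ m then (q : ℂ) else 0 := by
  have hq0 : (q : ℂ) ≠ 0 := by exact_mod_cast hq.ne'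
  set z : ℂ := Complex.exp (2 * Real.pi * Complex.I * (m : ℂ) / q) with hz
  have h1 : ∀ j ∈ range q, Complex.exp (2 * Real.pi * Complex.I * (m : ℂ) * ((j : ℂ) / q)) = z ^ j := by
    intro j _
    rw [hz, ← Complex.exp_nat_mul]
    congr 1
    field_simp
  rw [Finset.sum_congr rfl h1]
  have hzq : z ^ q = 1 := by
    rw [hz, ← Complex.exp_nat_mul]
    have e : (q : ℂ) * (2 * Real.pi * Complex.I * (m : ℂ) / q) = (m : ℂ) * (2 * Real.pi * Complex.I) := by
      field_simp
    rw [e, Complex.exp_int_mul_two_pi_mul_I]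
  by_cases hd : (q : ℤ) ∣ m
  · rw [if_pos hd]
    obtain ⟨c, hc⟩ := hd
    have hz1 : z = 1 := by
      rw [hz, hc]
      push_cast
      have e : (2 * Real.pi * Complex.I * ((q : ℂ) * (c : ℂ)) / q) = (c : ℂ) * (2 * Real.pi * Complex.I) := by
        field_simp
      rw [e, Complex.exp_int_mul_two_pi_mul_I]
    simp [hz1]
  · rw [if_neg hd]
    have hz1 : z ≠ 1 := by
      intro h
      rw [hz, Complex.exp_eq_one_iff] at h
      obtain ⟨c, hc⟩ := h
      apply hd
      refine ⟨c, ?_⟩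
      have hpi : (2 * Real.pi * Complex.I : ℂ) ≠ 0 := by
        simp [Real.pi_ne_zero]
      have h2 : (m : ℂ) = (q : ℂ) * c := by
        have h3 : (2 * Real.pi * Complex.I) * (m : ℂ) = (2 * Real.pi * Complex.I) * ((q : ℂ) * c) := by
          rw [div_eq_iff hq0] at hc
          rw [hc]
          ring
        exact mul_left_cancel₀ hpi h3
      exact_mod_cast h2
    rw [geom_sum_eq hz1, hzq, sub_self, zero_div]

private theorem per52 (b P : ℕ → ℂ) (q : ℕ) (hq : 0 < q) (hP : Function.Periodic P q) (hP1 : ∀ n, ‖P n‖ ≤ 1) (N : ℕ)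
    (η : ℝ) (hb : ∀ x : ℝ, ‖∑ n ∈ Icc 1 N, b n * Complex.exp (2 * Real.pi * Complex.I * n * x)‖ ≤ η) (x : ℝ) :
    ‖∑ n ∈ Icc 1 N, b n * P n * Complex.exp (2 * Real.pi * Complex.I * n * x)‖ ≤ q * η := by
  have hq0 : (q : ℂ) ≠ 0 := by exact_mod_cast hq.ne'
  have hqr : (0 : ℝ) < q := by exact_mod_cast hq
  have h1 : ∀ n : ℕ, P n = ∑ a ∈ range q, ∑ j ∈ range q, P a * (1 / q) *
      Complex.exp (2 * Real.pi * Complex.I * (((n : ℤ) - a : ℤ) : ℂ) * ((j : ℂ) / q)) := by
    intro n
    have h2 : ∀ a ∈ range q, (∑ j ∈ range q, P a * (1 / q) *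
        Complex.exp (2 * Real.pi * Complex.I * (((n : ℤ) - a : ℤ) : ℂ) * ((j : ℂ) / q))) = if a = n % q then P a else 0 := by
      intro a ha
      rw [← Finset.mul_sum, roots52 q hq]
      have h3 : (q : ℤ) ∣ (n : ℤ) - a ↔ a = n % q := by
        rw [← Int.modEq_iff_dvd, Int.natCast_modEq_iff]
        constructor
        · intro h4
          have h5 : a % q = n % q := h4
          rwa [Nat.mod_eq_of_lt (Finset.mem_range.1 ha)] at h5
        · intro h4
          show a % q = n % q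
          rw [h4, Nat.mod_mod]
      by_cases h4 : a = n % q
      · rw [if_pos h4, if_pos (h3.2 h4)]
        field_simp
      · rw [if_neg h4, if_neg (fun h5 => h4 (h3.1 h5)), mul_zero]
    rw [Finset.sum_congr rfl h2, Finset.sum_ite_eq' (range q) (n % q), if_pos (Finset.mem_range.2 (Nat.mod_lt _ hq)),
      hP.map_mod_nat]
  have h2 : ∑ n ∈ Icc 1 N, b n * P n * Complex.exp (2 * Real.pi * Complex.I * n * x) =
      ∑ a ∈ range q, ∑ j ∈ range q, P a * (1 / q) * Complex.exp (-(2 * Real.pi * Complex.I * (a : ℂ) * ((j : ℂ) / q))) *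
        ∑ n ∈ Icc 1 N, b n * Complex.exp (2 * Real.pi * Complex.I * n * ((x + j / q : ℝ) : ℂ)) := by
    have h3 : ∀ n ∈ Icc 1 N, b n * P n * Complex.exp (2 * Real.pi * Complex.I * n * x) =
        ∑ a ∈ range q, ∑ j ∈ range q, P a * (1 / q) * Complex.exp (-(2 * Real.pi * Complex.I * (a : ℂ) * ((j : ℂ) / q))) *
          (b n * Complex.exp (2 * Real.pi * Complex.I * n * ((x + j / q : ℝ) : ℂ))) := by
      intro n _
      rw [h1 n, Finset.mul_sum, Finset.sum_mul]
      refine Finset.sum_congr rfl fun a _ => ?_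
      rw [Finset.mul_sum, Finset.sum_mul]
      refine Finset.sum_congr rfl fun j _ => ?_
      have e1 : Complex.exp (2 * Real.pi * Complex.I * (((n : ℤ) - a : ℤ) : ℂ) * ((j : ℂ) / q)) =
          Complex.exp (2 * Real.pi * Complex.I * (n : ℂ) * ((j : ℂ) / q)) *
            Complex.exp (-(2 * Real.pi * Complex.I * (a : ℂ) * ((j : ℂ) / q))) := by
        rw [← Complex.exp_add]
        congr 1
        push_cast
        ring
      have e2 : Complex.exp (2 * Real.pi * Complex.I * n * ((x + j / q : ℝ) : ℂ)) =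
          Complex.exp (2 * Real.pi * Complex.I * n * x) * Complex.exp (2 * Real.pi * Complex.I * (n : ℂ) * ((j : ℂ) / q)) := by
        rw [← Complex.exp_add]
        congr 1
        push_cast
        ring
      rw [e1, e2]
      ring
    rw [Finset.sum_congr rfl h3, Finset.sum_comm]
    refine Finset.sum_congr rfl fun a _ => ?_
    rw [Finset.sum_comm]
    refine Finset.sum_congr rfl fun j _ => ?_
    rw [Finset.mul_sum]
  rw [h2]
  refine (norm_sum_le _ _).trans ?_
  have h3 : ∀ a ∈ range q, ‖∑ j ∈ range q, P a * (1 / q) * Complex.exp (-(2 * Real.pi * Complex.I * (a : ℂ) * ((j : ℂ) / q))) *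
        ∑ n ∈ Icc 1 N, b n * Complex.exp (2 * Real.pi * Complex.I * n * ((x + j / q : ℝ) : ℂ))‖ ≤ η := by
    intro a _
    refine (norm_sum_le _ _).trans ?_
    have h4 : ∀ j ∈ range q, ‖P a * (1 / q) * Complex.exp (-(2 * Real.pi * Complex.I * (a : ℂ) * ((j : ℂ) / q))) *
        ∑ n ∈ Icc 1 N, b n * Complex.exp (2 * Real.pi * Complex.I * n * ((x + j / q : ℝ) : ℂ))‖ ≤ 1 / q * η := by
      intro j _
      have e1 : ‖Complex.exp (-(2 * Real.pi * Complex.I * (a : ℂ) * ((j : ℂ) / q)))‖ = 1 := by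
        have e2 : (-(2 * Real.pi * Complex.I * (a : ℂ) * ((j : ℂ) / q)) : ℂ) = ((-(2 * Real.pi * a * (j / q)) : ℝ) : ℂ) * Complex.I := by
          push_cast
          ring
        rw [e2, Complex.norm_exp_ofReal_mul_I]
      rw [norm_mul, norm_mul, norm_mul, e1, mul_one, norm_div, norm_one, Complex.norm_natCast]
      have h5 := hb (x + j / q)
      have h6 : ‖P a‖ * (1 / (q : ℝ)) ≤ 1 / q := by
        refine mul_le_of_le_one_left (by positivity) (hP1 a)
      exact mul_le_mul h6 h5 (norm_nonneg _) (by positivity)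
    refine (Finset.sum_le_sum h4).trans ?_
    rw [Finset.sum_const, Finset.card_range, nsmul_eq_mul]
    apply le_of_eq
    field_simp
  refine (Finset.sum_le_sum h3).trans ?_
  rw [Finset.sum_const, Finset.card_range, nsmul_eq_mul]

/-! ### the quotient of the two functions -/

section

variable (f f' : ℕ → ℤ)

/-- the quotient -/
private noncomputable def rh52 (m : ℕ) : ℤ := GL.cm f m * GL.cm f' m

variable (hf : ∀ n, f n = 1 ∨ f n = -1) (hf' : ∀ n, f' n = 1 ∨ f' n = -1)

include hf hf'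

private theorem rh_sign52 (m : ℕ) : rh52 f f' m = 1 ∨ rh52 f f' m = -1 := by
  unfold rh52
  rcases GL.cm_sign f hf m with h1 | h1 <;> rcases GL.cm_sign f' hf' m with h2 | h2 <;> simp [h1, h2]

private theorem rh_mul52 {m n : ℕ} (hm : m ≠ 0) (hn : n ≠ 0) : rh52 f f' (m * n) = rh52 f f' m * rh52 f f' n := by
  unfold rh52
  rw [GL.cm_mul f hm hn, GL.cm_mul f' hm hn]
  ring

private theorem rh_one52 {m : ℕ} (h : ∀ p ∈ m.primeFactors, f p = f' p) : rh52 f f' m = 1 := by
  unfold rh52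
  rw [← GL.cm_congr h]
  rcases GL.cm_sign f hf m with h1 | h1 <;> simp [h1]

private theorem cm_rh52 (m : ℕ) : GL.cm f' m = GL.cm f m * rh52 f f' m := by
  unfold rh52
  rcases GL.cm_sign f hf m with h1 | h1 <;> simp [h1]

/-- the numbers at which the periodic approximation may fail -/
private def bad52 (y v m : ℕ) : Prop :=
  (∃ p : ℕ, p.Prime ∧ f p ≠ f' p ∧ y < p ∧ p ∣ m) ∨ ∃ p : ℕ, p.Prime ∧ p ≤ y ∧ p ^ (v + 1) ∣ m

private theorem rh_gcd52 (y v m : ℕ) (hm : m ≠ 0) (hb : ¬ bad52 f f' y v m) :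
    rh52 f f' m = rh52 f f' (Nat.gcd m (y.factorial ^ v)) := by
  have hq : y.factorial ^ v ≠ 0 := pow_ne_zero _ (Nat.factorial_ne_zero y)
  set g := Nat.gcd m (y.factorial ^ v) with hg
  have hg0 : g ≠ 0 := Nat.gcd_ne_zero_left hm
  have hgm : g ∣ m := Nat.gcd_dvd_left _ _
  obtain ⟨c, hc⟩ := hgm
  have hc0 : c ≠ 0 := by
    rintro rfl
    exact hm (by rw [hc, mul_zero])
  have h1 : rh52 f f' c = 1 := by
    refine rh_one52 f f' hf hf' fun p hp => ?_
    by_contra hne
    have hpp := Nat.prime_of_mem_primeFactors hp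
    have hpc := Nat.dvd_of_mem_primeFactors hp
    have hpm : p ∣ m := hc ▸ Dvd.dvd.mul_left hpc g
    have hpy : p ≤ y := by
      by_contra h2
      exact hb (Or.inl ⟨p, hpp, hne, not_le.1 h2, hpm⟩)
    have hv : ¬ p ^ (v + 1) ∣ m := fun h2 => hb (Or.inr ⟨p, hpp, hpy, h2⟩)
    have h3 : m.factorization p ≤ v := by
      by_contra h4
      exact hv ((pow_dvd_pow p (by omega)).trans (Nat.ordProj_dvd m p))
    have h4 : v ≤ (y.factorial ^ v).factorization p := by
      rw [Nat.factorization_pow]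
      have h5 : 1 ≤ y.factorial.factorization p :=
        (hpp.dvd_iff_one_le_factorization (Nat.factorial_ne_zero y)).1 ((hpp.dvd_factorial).2 hpy)
      show v ≤ v * y.factorial.factorization p
      exact Nat.le_mul_of_pos_right v h5
    have h5 : g.factorization p = m.factorization p := by
      rw [hg, Nat.factorization_gcd hm hq]
      show min (m.factorization p) ((y.factorial ^ v).factorization p) = _
      exact min_eq_left (h3.trans h4)
    have h6 : m.factorization p = g.factorization p + c.factorization p := by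
      conv_lhs => rw [hc, Nat.factorization_mul hg0 hc0]
      rfl
    have h7 : 1 ≤ c.factorization p := (hpp.dvd_iff_one_le_factorization hc0).1 hpc
    omega
  conv_lhs => rw [hc]
  rw [rh_mul52 f f' hf hf' hg0 hc0, h1, mul_one]

omit hf hf' in
open Classical in
private theorem card_bad52 (y v M : ℕ) : (((Icc 1 M).filter fun m => bad52 f f' y v m).card : ℝ) ≤
    M * ∑ p ∈ Ioc y M, (if p.Prime ∧ f p ≠ f' p then (1 : ℝ) / p else 0) + M * (y / 2 ^ (v + 1)) := by
  have hM0 : (0 : ℝ) ≤ M := Nat.cast_nonneg M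
  have hmul : ∀ d : ℕ, (((Icc 1 M).filter fun m => d ∣ m).card : ℝ) ≤ M / d := by
    intro d
    have h1 : (Icc 1 M).filter (fun m => d ∣ m) = (Ioc 0 M).filter (fun m => d ∣ m) := by
      ext m
      simp only [Finset.mem_filter, Finset.mem_Icc, Finset.mem_Ioc]
      constructor <;> rintro ⟨⟨h2, h3⟩, h4⟩ <;> exact ⟨⟨by omega, h3⟩, h4⟩
    rw [h1, Nat.Ioc_filter_dvd_card_eq_div]
    exact Nat.cast_div_le
  have hsub : (Icc 1 M).filter (fun m => bad52 f f' y v m) ⊆
      (((Ioc y M).filter fun p => p.Prime ∧ f p ≠ f' p).biUnion fun p => (Icc 1 M).filter fun m => p ∣ m) ∪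
        (((Icc 1 y).filter fun p => p.Prime).biUnion fun p => (Icc 1 M).filter fun m => p ^ (v + 1) ∣ m) := by
    intro m hm
    rw [Finset.mem_filter] at hm
    obtain ⟨hm1, hm2⟩ := hm
    rw [Finset.mem_union, Finset.mem_biUnion, Finset.mem_biUnion]
    have hm3 := Finset.mem_Icc.1 hm1
    rcases hm2 with ⟨p, h1, h2, h3, h4⟩ | ⟨p, h1, h2, h3⟩
    · left
      have h5 : p ≤ M := (Nat.le_of_dvd (by omega) h4).trans hm3.2
      exact ⟨p, Finset.mem_filter.2 ⟨Finset.mem_Ioc.2 ⟨h3, h5⟩, h1, h2⟩, Finset.mem_filter.2 ⟨hm1, h4⟩⟩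
    · right
      exact ⟨p, Finset.mem_filter.2 ⟨Finset.mem_Icc.2 ⟨h1.one_lt.le, h2⟩, h1⟩, Finset.mem_filter.2 ⟨hm1, h3⟩⟩
  have h1 : (((Icc 1 M).filter fun m => bad52 f f' y v m).card : ℝ) ≤
      (∑ p ∈ (Ioc y M).filter (fun p => p.Prime ∧ f p ≠ f' p), (((Icc 1 M).filter fun m => p ∣ m).card : ℝ)) +
        ∑ p ∈ (Icc 1 y).filter (fun p => p.Prime), (((Icc 1 M).filter fun m => p ^ (v + 1) ∣ m).card : ℝ) := by
    have h2 := (Finset.card_le_card hsub).trans ((Finset.card_union_le _ _).trans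
      (add_le_add Finset.card_biUnion_le Finset.card_biUnion_le))
    exact_mod_cast h2
  refine h1.trans (add_le_add ?_ ?_)
  · rw [Finset.mul_sum, Finset.sum_filter]
    refine Finset.sum_le_sum fun p _ => ?_
    split_ifs with h2
    · rw [mul_one_div]
      exact hmul p
    · rw [mul_zero]
  · have h2 : ∀ p ∈ (Icc 1 y).filter (fun p => p.Prime), (((Icc 1 M).filter fun m => p ^ (v + 1) ∣ m).card : ℝ) ≤
        M * (1 / 2 ^ (v + 1)) := by
      intro p hp
      have h3 : 2 ≤ p := (Finset.mem_filter.1 hp).2.two_le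
      refine (hmul _).trans ?_
      rw [mul_one_div]
      refine div_le_div_of_nonneg_left hM0 (by positivity) ?_
      push_cast
      exact pow_le_pow_left₀ (by norm_num) (by exact_mod_cast h3) _
    refine (Finset.sum_le_sum h2).trans ?_
    rw [Finset.sum_const, nsmul_eq_mul]
    have h3 : (((Icc 1 y).filter (fun p => p.Prime)).card : ℝ) ≤ y := by
      have := Finset.card_filter_le (Icc 1 y) (fun p => p.Prime)
      rw [Nat.card_Icc, Nat.add_sub_cancel] at this
      exact_mod_cast this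
    have h4 : (0 : ℝ) ≤ M * (1 / 2 ^ (v + 1)) := by positivity
    calc _ ≤ (y : ℝ) * (M * (1 / 2 ^ (v + 1))) := mul_le_mul_of_nonneg_right h3 h4
      _ = M * (y / 2 ^ (v + 1)) := by ring

end

open Classical in
/-- B6 -/
theorem flips (f f' : ℕ → ℤ) (hf : ∀ n, f n = 1 ∨ f n = -1) (hf' : ∀ n, f' n = 1 ∨ f' n = -1)
    (hs : Summable (fun p : ℕ => if p.Prime ∧ f p ≠ f' p then (1 : ℝ) / p else 0))
    (h : ChT (GL.cm f)) : ChT (GL.cm f') := by
  intro k hk sh hinj ε hε
  have hkr : (0 : ℝ) < k := by exact_mod_cast hk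
  -- the parameters
  set δ : ℝ := ε / (16 * k) with hδ
  have hδ0 : 0 < δ := by positivity
  obtain ⟨s, hs1⟩ := summable_iff_vanishing_norm.1 hs δ hδ0
  set y : ℕ := s.sup id with hy
  have htail : ∀ M : ℕ, (∑ p ∈ Ioc y M, if p.Prime ∧ f p ≠ f' p then (1 : ℝ) / p else 0) ≤ δ := by
    intro M
    have h1 : Disjoint (Ioc y M) s := by
      rw [Finset.disjoint_left]
      intro a ha hs2
      have h2 : a ≤ y := Finset.le_sup (f := id) hs2
      have h3 := (Finset.mem_Ioc.1 ha).1
      omega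
    exact (le_abs_self _).trans (hs1 _ h1).le
  obtain ⟨v, hv⟩ : ∃ v : ℕ, (y : ℝ) / 2 ^ (v + 1) ≤ δ := by
    obtain ⟨v, hv⟩ := exists_pow_lt_of_lt_one (show (0 : ℝ) < δ / (y + 1) by positivity) (show (1 / 2 : ℝ) < 1 by norm_num)
    refine ⟨v, ?_⟩
    rw [lt_div_iff₀ (by positivity), one_div, inv_pow] at hv
    have h1 : (y : ℝ) / 2 ^ (v + 1) ≤ (2 ^ v)⁻¹ * (y + 1) := by
      rw [pow_succ, inv_mul_eq_div]
      have h2 : (0 : ℝ) < 2 ^ v := by positivity
      rw [div_le_div_iff₀ (by positivity) h2]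
      have h3 : (0 : ℝ) ≤ y := Nat.cast_nonneg y
      nlinarith
    exact h1.trans hv.le
  set q : ℕ := y.factorial ^ v with hq
  have hq0 : 0 < q := pow_pos (Nat.factorial_pos y) v
  have hqr : (0 : ℝ) < q := by exact_mod_cast hq0
  obtain ⟨N₁, hN₁⟩ := h k hk sh hinj (ε / (2 * q)) (by positivity)
  set Hm : ℕ := ∑ i, sh i with hHm
  refine ⟨N₁ + Hm, ?_⟩
  intro N hN x
  have hN1 : N₁ ≤ N := by omega
  have hN2 : Hm ≤ N := by omega
  -- the periodic factor
  let P : ℕ → ℂ := fun n => ∏ i, (rh52 f f' (Nat.gcd (n + sh i) q) : ℂ)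
  let W : ℕ → ℂ := fun n => ∏ i, (rh52 f f' (n + sh i) : ℂ)
  have hnorm1 : ∀ m : ℕ, ‖(rh52 f f' m : ℂ)‖ = 1 := by
    intro m
    rcases rh_sign52 f f' hf hf' m with h1 | h1 <;> simp [h1]
  have hP1 : ∀ n, ‖P n‖ ≤ 1 := by
    intro n
    show ‖∏ i, (rh52 f f' (Nat.gcd (n + sh i) q) : ℂ)‖ ≤ 1
    rw [norm_prod]
    exact (Finset.prod_eq_one fun i _ => hnorm1 _).le
  have hW1 : ∀ n, ‖W n‖ ≤ 1 := by
    intro n
    show ‖∏ i, (rh52 f f' (n + sh i) : ℂ)‖ ≤ 1
    rw [norm_prod]
    exact (Finset.prod_eq_one fun i _ => hnorm1 _).le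
  have hper : Function.Periodic P q := by
    intro n
    show ∏ i, (rh52 f f' (Nat.gcd (n + q + sh i) q) : ℂ) = ∏ i, (rh52 f f' (Nat.gcd (n + sh i) q) : ℂ)
    refine Finset.prod_congr rfl fun i _ => ?_
    have e : n + q + sh i = (n + sh i) + q := by ring
    rw [e, Nat.gcd_add_self_left]
  -- main term
  let b : ℕ → ℂ := fun n => ∏ i, (GL.cm f (n + sh i) : ℂ)
  have hmain := per52 b P q hq0 hper hP1 N (ε / (2 * q) * N) (fun x => hN₁ N hN1 x) x
  have hb1 : ∀ n, ‖b n‖ ≤ 1 := by
    intro n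
    show ‖∏ i, (GL.cm f (n + sh i) : ℂ)‖ ≤ 1
    rw [norm_prod]
    refine (Finset.prod_eq_one fun i _ => ?_).le
    rcases GL.cm_sign f hf (n + sh i) with h1 | h1 <;> simp [h1]
  have hsplit : corr (GL.cm f') sh N x = (∑ n ∈ Icc 1 N, b n * P n * Complex.exp (2 * Real.pi * Complex.I * n * x)) +
      ∑ n ∈ Icc 1 N, b n * (W n - P n) * Complex.exp (2 * Real.pi * Complex.I * n * x) := by
    unfold corr
    rw [← Finset.sum_add_distrib]
    refine Finset.sum_congr rfl fun n _ => ?_
    have e : ∏ i, (GL.cm f' (n + sh i) : ℂ) = b n * W n := by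
      show _ = (∏ i, (GL.cm f (n + sh i) : ℂ)) * ∏ i, (rh52 f f' (n + sh i) : ℂ)
      rw [← Finset.prod_mul_distrib]
      refine Finset.prod_congr rfl fun i _ => ?_
      rw [cm_rh52 f f' hf hf']
      push_cast
      ring
    rw [e]
    ring
  -- the error
  have hexp : ∀ n : ℕ, ‖Complex.exp (2 * Real.pi * Complex.I * n * x)‖ = 1 := by
    intro n
    have h1 : (2 * Real.pi * Complex.I * n * x : ℂ) = ((2 * Real.pi * n * x : ℝ) : ℂ) * Complex.I := by
      push_cast
      ring
    rw [h1, Complex.norm_exp_ofReal_mul_I]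
  have herr : ‖∑ n ∈ Icc 1 N, b n * (W n - P n) * Complex.exp (2 * Real.pi * Complex.I * n * x)‖ ≤
      2 * ∑ i : Fin k, ((Icc 1 N).filter fun n => bad52 f f' y v (n + sh i)).card := by
    refine (norm_sum_le _ _).trans ?_
    have h1 : ∀ n ∈ Icc 1 N, ‖b n * (W n - P n) * Complex.exp (2 * Real.pi * Complex.I * n * x)‖ ≤
        2 * ∑ i : Fin k, if bad52 f f' y v (n + sh i) then (1 : ℝ) else 0 := by
      intro n hn
      rw [norm_mul, hexp, mul_one, norm_mul]
      have h2 : ‖W n - P n‖ ≤ 2 * ∑ i : Fin k, if bad52 f f' y v (n + sh i) then (1 : ℝ) else 0 := by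
        by_cases h3 : ∃ i, bad52 f f' y v (n + sh i)
        · obtain ⟨i, hi⟩ := h3
          have h4 : (if bad52 f f' y v (n + sh i) then (1 : ℝ) else 0) ≤
              ∑ i : Fin k, if bad52 f f' y v (n + sh i) then (1 : ℝ) else 0 :=
            Finset.single_le_sum (f := fun i => if bad52 f f' y v (n + sh i) then (1 : ℝ) else 0)
              (fun j _ => by split_ifs <;> norm_num) (Finset.mem_univ i)
          rw [if_pos hi] at h4
          have h5 := (norm_sub_le (W n) (P n)).trans (add_le_add (hW1 n) (hP1 n))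
          linarith
        · push Not at h3
          have h4 : W n = P n := by
            refine Finset.prod_congr rfl fun i _ => ?_
            rw [rh_gcd52 f f' hf hf' y v (n + sh i) (by have := (Finset.mem_Icc.1 hn).1; omega) (h3 i)]
          rw [h4, sub_self, norm_zero]
          refine mul_nonneg (by norm_num) (Finset.sum_nonneg fun i _ => ?_)
          split_ifs <;> norm_num
      have h6 : ‖b n‖ * ‖W n - P n‖ ≤ ‖W n - P n‖ := mul_le_of_le_one_left (norm_nonneg _) (hb1 n)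
      exact h6.trans h2
    refine (Finset.sum_le_sum h1).trans ?_
    rw [← Finset.mul_sum, Finset.sum_comm]
    apply le_of_eq
    push_cast
    congr 1
    refine Finset.sum_congr rfl fun i _ => ?_
    rw [Finset.sum_ite, Finset.sum_const_zero, add_zero, Finset.sum_const, nsmul_eq_mul, mul_one]
  have hcard : ∀ i : Fin k, (((Icc 1 N).filter fun n => bad52 f f' y v (n + sh i)).card : ℝ) ≤ 4 * δ * N := by
    intro i
    have hi : sh i ≤ Hm := Finset.single_le_sum (f := fun i => sh i) (fun _ _ => Nat.zero_le _) (Finset.mem_univ i)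
    have h1 : ((Icc 1 N).filter fun n => bad52 f f' y v (n + sh i)).card ≤
        ((Icc 1 (N + sh i)).filter fun m => bad52 f f' y v m).card := by
      refine Finset.card_le_card_of_injOn (fun n => n + sh i) ?_ ?_
      · intro n hn
        have hn' := Finset.mem_filter.1 (Finset.mem_coe.1 hn)
        have hn2 := Finset.mem_Icc.1 hn'.1
        exact Finset.mem_coe.2 (Finset.mem_filter.2 ⟨Finset.mem_Icc.2 ⟨by show 1 ≤ n + sh i; omega, by show n + sh i ≤ N + sh i; omega⟩, hn'.2⟩)
      · intro a _ b _ hab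
        exact Nat.add_right_cancel hab
    have h2 := card_bad52 f f' y v (N + sh i)
    have h3 : ((N + sh i : ℕ) : ℝ) ≤ 2 * N := by
      have : N + sh i ≤ 2 * N := by omega
      exact_mod_cast this
    have h4 := htail (N + sh i)
    have h5 : (0 : ℝ) ≤ ((N + sh i : ℕ) : ℝ) := Nat.cast_nonneg _
    have h6 : (((Icc 1 N).filter fun n => bad52 f f' y v (n + sh i)).card : ℝ) ≤
        (((Icc 1 (N + sh i)).filter fun m => bad52 f f' y v m).card : ℝ) := by exact_mod_cast h1
    calc (((Icc 1 N).filter fun n => bad52 f f' y v (n + sh i)).card : ℝ)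
        ≤ ((N + sh i : ℕ) : ℝ) * δ + ((N + sh i : ℕ) : ℝ) * δ :=
          h6.trans (h2.trans (add_le_add (mul_le_mul_of_nonneg_left h4 h5) (mul_le_mul_of_nonneg_left hv h5)))
      _ ≤ 4 * δ * N := by nlinarith
  have herr2 : (2 * ((∑ i : Fin k, ((Icc 1 N).filter fun n => bad52 f f' y v (n + sh i)).card : ℕ) : ℝ)) ≤ 8 * k * δ * N := by
    have h1 : (∑ i : Fin k, (((Icc 1 N).filter fun n => bad52 f f' y v (n + sh i)).card : ℝ)) ≤
        ∑ i : Fin k, (4 * δ * N : ℝ) := Finset.sum_le_sum fun i _ => hcard i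
    rw [Finset.sum_const, Finset.card_univ, Fintype.card_fin, nsmul_eq_mul] at h1
    push_cast
    linarith
  have e1 : (q : ℝ) * (ε / (2 * q) * N) = ε / 2 * N := by
    field_simp
  have e2 : 8 * (k : ℝ) * δ * N = ε / 2 * N := by
    rw [hδ]
    field_simp
    ring
  rw [hsplit]
  refine (norm_add_le _ _).trans ?_
  rw [e1] at hmain
  rw [e2] at herr2
  have herr3 := herr.trans (by exact_mod_cast herr2)
  linarith

end Pool.Agent.Helper66.CW
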