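import Pool.Agent.Helper66.CW.Defs

/-!
# CW, block B5: the inequality of van der Corput
-/

set_option autoImplicit false

namespace Pool.Agent.Helper66.CW

open Finset Filter Pool.Agent.Helper66.MB

/-- shifting a bounded sum -/
private theorem shift52 (B : ℕ → ℂ) (hB : ∀ n, ‖B n‖ ≤ 1) (N r : ℕ) :
    ‖(∑ n ∈ range N, B (n + 1 + r)) - ∑ n ∈ range N, B (n + 1)‖ ≤ 2 * r := by
  induction r with
  | zero => simp
  | succ r ih =>
    have h1 : (∑ n ∈ range N, B (n + 1 + (r + 1))) = (∑ n ∈ range N, B (n + 1 + r)) + B (N + 1 + r) - B (1 + r) := by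
      have h2 := Finset.sum_range_succ (fun n => B (n + 1 + r)) N
      have h3 := Finset.sum_range_succ' (fun n => B (n + 1 + r)) N
      rw [h2] at h3
      have h4 : (∑ n ∈ range N, B (n + 1 + (r + 1))) = ∑ n ∈ range N, B (n + 1 + 1 + r) :=
        Finset.sum_congr rfl fun n _ => by congr 1; ring
      rw [h4, h3, Nat.zero_add]
      ring
    have h5 : (∑ n ∈ range N, B (n + 1 + (r + 1))) - ∑ n ∈ range N, B (n + 1) =
        ((∑ n ∈ range N, B (n + 1 + r)) - ∑ n ∈ range N, B (n + 1)) + (B (N + 1 + r) - B (1 + r)) := by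
      rw [h1]
      ring
    rw [h5]
    refine (norm_add_le _ _).trans ?_
    have h6 := (norm_sub_le (B (N + 1 + r)) (B (1 + r))).trans (add_le_add (hB _) (hB _))
    push_cast
    linarith

/-- the inequality of van der Corput -/
private theorem vdc_ineq52 (B : ℕ → ℂ) (hB : ∀ n, ‖B n‖ ≤ 1) (N H : ℕ) (E : ℕ → ℕ → ℝ)
    (hE : ∀ r < H, ∀ s < H, ‖∑ n ∈ range N, B (n + 1 + r) * (starRingEnd ℂ) (B (n + 1 + s))‖ ≤ E r s) :
    H * ‖∑ n ∈ range N, B (n + 1)‖ ≤ Real.sqrt (N * ∑ r ∈ range H, ∑ s ∈ range H, E r s) + H ^ 2 * 2 := by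
  have h1 : (H : ℂ) * ∑ n ∈ range N, B (n + 1) = (∑ n ∈ range N, ∑ r ∈ range H, B (n + 1 + r)) -
      ∑ r ∈ range H, ((∑ n ∈ range N, B (n + 1 + r)) - ∑ n ∈ range N, B (n + 1)) := by
    rw [Finset.sum_sub_distrib, Finset.sum_comm, Finset.sum_const, Finset.card_range, nsmul_eq_mul]
    ring
  have h2 : ‖(H : ℂ) * ∑ n ∈ range N, B (n + 1)‖ = H * ‖∑ n ∈ range N, B (n + 1)‖ := by
    rw [norm_mul, Complex.norm_natCast]
  have h3 : ‖∑ r ∈ range H, ((∑ n ∈ range N, B (n + 1 + r)) - ∑ n ∈ range N, B (n + 1))‖ ≤ (H : ℝ) ^ 2 * 2 := by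
    refine (norm_sum_le _ _).trans ?_
    calc ∑ r ∈ range H, ‖(∑ n ∈ range N, B (n + 1 + r)) - ∑ n ∈ range N, B (n + 1)‖
        ≤ ∑ r ∈ range H, (2 * H : ℝ) := Finset.sum_le_sum fun r hr => (shift52 B hB N r).trans (by
          have : (r : ℝ) ≤ H := by exact_mod_cast (Finset.mem_range.1 hr).le
          linarith)
      _ = (H : ℝ) ^ 2 * 2 := by
        rw [Finset.sum_const, Finset.card_range, nsmul_eq_mul]
        ring
  have h4 : ‖∑ n ∈ range N, ∑ r ∈ range H, B (n + 1 + r)‖ ≤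
      Real.sqrt (N * ∑ r ∈ range H, ∑ s ∈ range H, E r s) := by
    refine Real.le_sqrt_of_sq_le ?_
    have h5 : ‖∑ n ∈ range N, ∑ r ∈ range H, B (n + 1 + r)‖ ^ 2 ≤ N * ∑ n ∈ range N, ‖∑ r ∈ range H, B (n + 1 + r)‖ ^ 2 := by
      have h6 := sq_sum_le_card_mul_sum_sq (s := range N) (f := fun n => ‖∑ r ∈ range H, B (n + 1 + r)‖)
      rw [Finset.card_range] at h6
      refine le_trans ?_ h6
      exact pow_le_pow_left₀ (norm_nonneg _) (norm_sum_le _ _) 2
    refine h5.trans (mul_le_mul_of_nonneg_left ?_ (Nat.cast_nonneg N))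
    have h7 : ((∑ n ∈ range N, ‖∑ r ∈ range H, B (n + 1 + r)‖ ^ 2 : ℝ) : ℂ) =
        ∑ r ∈ range H, ∑ s ∈ range H, ∑ n ∈ range N, B (n + 1 + r) * (starRingEnd ℂ) (B (n + 1 + s)) := by
      rw [Complex.ofReal_sum]
      have h8 : ∀ n ∈ range N, ((‖∑ r ∈ range H, B (n + 1 + r)‖ ^ 2 : ℝ) : ℂ) =
          ∑ r ∈ range H, ∑ s ∈ range H, B (n + 1 + r) * (starRingEnd ℂ) (B (n + 1 + s)) := by
        intro n _
        rw [Complex.ofReal_pow, ← Complex.mul_conj', map_sum, Finset.sum_mul_sum]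
      rw [Finset.sum_congr rfl h8, Finset.sum_comm]
      refine Finset.sum_congr rfl fun r _ => ?_
      rw [Finset.sum_comm]
    have h9 : (∑ n ∈ range N, ‖∑ r ∈ range H, B (n + 1 + r)‖ ^ 2 : ℝ) =
        ‖((∑ n ∈ range N, ‖∑ r ∈ range H, B (n + 1 + r)‖ ^ 2 : ℝ) : ℂ)‖ := by
      rw [Complex.norm_real, Real.norm_of_nonneg (Finset.sum_nonneg fun n _ => sq_nonneg _)]
    rw [h9, h7]
    refine (norm_sum_le _ _).trans (Finset.sum_le_sum fun r hr => ?_)
    refine (norm_sum_le _ _).trans (Finset.sum_le_sum fun s hs => ?_)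
    exact hE r (Finset.mem_range.1 hr) s (Finset.mem_range.1 hs)
  rw [← h2, h1]
  exact (norm_sub_le _ _).trans (add_le_add h4 h3)

/-- B5 -/
theorem vdc (g : ℕ → ℤ) (hg : ∀ n, g n = 1 ∨ g n = -1) (h : Ch2 g) : ChT g := by
  intro k hk sh hinj ε hε
  -- the length `H`
  obtain ⟨H, hH0, hH⟩ : ∃ H : ℕ, 0 < H ∧ (k : ℝ) ^ 2 / H ≤ ε ^ 2 / 8 := by
    obtain ⟨H, hH⟩ := exists_nat_gt (8 * (k : ℝ) ^ 2 / ε ^ 2)
    have h0 : (0 : ℝ) ≤ 8 * (k : ℝ) ^ 2 / ε ^ 2 := by positivity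
    have h1 : (0 : ℝ) < H := h0.trans_lt hH
    refine ⟨H, by exact_mod_cast h1, ?_⟩
    rw [div_lt_iff₀ (by positivity)] at hH
    rw [div_le_div_iff₀ h1 (by norm_num)]
    linarith
  have hHr : (0 : ℝ) < H := by exact_mod_cast hH0
  -- the correlations
  let ap : ℕ → ℕ → Fin (k + k) → ℕ := fun r s => Fin.append (fun i => r + sh i) (fun i => s + sh i)
  have hN : ∀ r s : ℕ, ∃ N₀ : ℕ, ∀ N, N₀ ≤ N → Function.Injective (ap r s) → |cor g (ap r s) N| ≤ ε ^ 2 / 8 * N := by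
    intro r s
    by_cases hi : Function.Injective (ap r s)
    · obtain ⟨N₀, h0⟩ := h (k + k) (by omega) (ap r s) hi (ε ^ 2 / 8) (by positivity)
      exact ⟨N₀, fun N hN _ => h0 N hN⟩
    · exact ⟨0, fun N _ h1 => absurd h1 hi⟩
  choose N₁ hN₁ using hN
  obtain ⟨N₂, hN₂⟩ := exists_nat_gt (4 * H / ε : ℝ)
  refine ⟨N₂ + ∑ r ∈ range H, ∑ s ∈ range H, N₁ r s, ?_⟩
  intro N hN x
  have hNN : ∀ r < H, ∀ s < H, N₁ r s ≤ N := by
    intro r hr s hs
    have h1 : N₁ r s ≤ ∑ s ∈ range H, N₁ r s :=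
      Finset.single_le_sum (f := fun s => N₁ r s) (fun _ _ => Nat.zero_le _) (Finset.mem_range.2 hs)
    have h2 : ∑ s ∈ range H, N₁ r s ≤ ∑ r ∈ range H, ∑ s ∈ range H, N₁ r s :=
      Finset.single_le_sum (f := fun r => ∑ s ∈ range H, N₁ r s) (fun _ _ => Nat.zero_le _) (Finset.mem_range.2 hr)
    omega
  have hNr : 4 * (H : ℝ) / ε < N := hN₂.trans_le (by exact_mod_cast (by omega : N₂ ≤ N))
  -- the sequence
  let B : ℕ → ℂ := fun n => (∏ i, (g (n + sh i) : ℂ)) * Complex.exp (2 * Real.pi * Complex.I * n * x)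
  have hg1 : ∀ n, ‖(g n : ℂ)‖ = 1 := by
    intro n
    rcases hg n with h1 | h1 <;> simp [h1]
  have hexp : ∀ n : ℕ, ‖Complex.exp (2 * Real.pi * Complex.I * n * x)‖ = 1 := by
    intro n
    have h1 : (2 * Real.pi * Complex.I * n * x : ℂ) = ((2 * Real.pi * n * x : ℝ) : ℂ) * Complex.I := by
      push_cast
      ring
    rw [h1, Complex.norm_exp_ofReal_mul_I]
  have hB : ∀ n, ‖B n‖ ≤ 1 := by
    intro n
    show ‖(∏ i, (g (n + sh i) : ℂ)) * Complex.exp (2 * Real.pi * Complex.I * n * x)‖ ≤ 1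
    rw [norm_mul, hexp, norm_prod, mul_one]
    exact (Finset.prod_eq_one fun i _ => hg1 _).le
  have hsum : corr g sh N x = ∑ n ∈ range N, B (n + 1) := by
    unfold corr
    rw [Finset.range_eq_Ico, Finset.sum_Ico_add' (fun n => B n) 0 N 1]
    rfl
  -- the products
  have hprod : ∀ r s n : ℕ, B (n + 1 + r) * (starRingEnd ℂ) (B (n + 1 + s)) =
      ((∏ i, (g (n + 1 + ap r s i) : ℝ) : ℝ) : ℂ) * Complex.exp (2 * Real.pi * Complex.I * ((r : ℂ) - s) * x) := by
    intro r s n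
    show ((∏ i, (g (n + 1 + r + sh i) : ℂ)) * Complex.exp (2 * Real.pi * Complex.I * ((n + 1 + r : ℕ) : ℂ) * x)) *
      (starRingEnd ℂ) ((∏ i, (g (n + 1 + s + sh i) : ℂ)) * Complex.exp (2 * Real.pi * Complex.I * ((n + 1 + s : ℕ) : ℂ) * x)) = _
    rw [map_mul, map_prod, ← Complex.exp_conj, Fin.prod_univ_add]
    simp only [map_mul, map_intCast, Complex.conj_ofReal, Complex.conj_I, map_natCast, map_ofNat]
    have e1 : ∀ i : Fin k, ap r s (Fin.castAdd k i) = r + sh i := fun i => Fin.append_left _ _ i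
    have e2 : ∀ i : Fin k, ap r s (Fin.natAdd k i) = s + sh i := fun i => Fin.append_right _ _ i
    simp only [e1, e2, ← Nat.add_assoc]
    push_cast
    have e3 : Complex.exp (2 * Real.pi * Complex.I * ((r : ℂ) - s) * x) =
        Complex.exp (2 * Real.pi * Complex.I * ((n : ℂ) + 1 + r) * x) * Complex.exp (2 * Real.pi * -Complex.I * ((n : ℂ) + 1 + s) * x) := by
      rw [← Complex.exp_add]
      congr 1
      ring
    rw [e3]
    ring
  have hin : ∀ r s : ℕ, ‖∑ n ∈ range N, B (n + 1 + r) * (starRingEnd ℂ) (B (n + 1 + s))‖ = |cor g (ap r s) N| := by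
    intro r s
    rw [Finset.sum_congr rfl fun n _ => hprod r s n, ← Finset.sum_mul, norm_mul]
    have h1 : ‖Complex.exp (2 * Real.pi * Complex.I * ((r : ℂ) - s) * x)‖ = 1 := by
      have h2 : (2 * Real.pi * Complex.I * ((r : ℂ) - s) * x : ℂ) = ((2 * Real.pi * (r - s) * x : ℝ) : ℂ) * Complex.I := by
        push_cast
        ring
      rw [h2, Complex.norm_exp_ofReal_mul_I]
    rw [h1, mul_one, ← Complex.ofReal_sum, Complex.norm_real, Real.norm_eq_abs]
    congr 1
    unfold cor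
    rw [Finset.range_eq_Ico, Finset.sum_Ico_add' (fun n => ∏ i, (g (n + ap r s i) : ℝ)) 0 N 1]
    rfl
  -- the bad pairs
  let bad : ℕ → ℕ → ℝ := fun r s => ∑ i : Fin k, ∑ j : Fin k, if r + sh i = s + sh j then (1 : ℝ) else 0
  have hE : ∀ r < H, ∀ s < H, ‖∑ n ∈ range N, B (n + 1 + r) * (starRingEnd ℂ) (B (n + 1 + s))‖ ≤
      ε ^ 2 / 8 * N + bad r s * N := by
    intro r hr s hs
    rw [hin]
    have hbad0 : 0 ≤ bad r s := Finset.sum_nonneg fun i _ => Finset.sum_nonneg fun j _ => by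
      split_ifs <;> norm_num
    by_cases hi : Function.Injective (ap r s)
    · have h1 := hN₁ r s N (hNN r hr s hs) hi
      have h2 : 0 ≤ bad r s * N := by positivity
      linarith
    · have h1 : |cor g (ap r s) N| ≤ N := by
        unfold cor
        refine (Finset.abs_sum_le_sum_abs _ _).trans ?_
        have h2 : ∀ n ∈ Icc 1 N, |∏ i, (g (n + ap r s i) : ℝ)| ≤ 1 := by
          intro n _
          rw [Finset.abs_prod]
          refine (Finset.prod_eq_one fun i _ => ?_).le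
          rcases hg (n + ap r s i) with h3 | h3 <;> simp [h3]
        refine (Finset.sum_le_sum h2).trans ?_
        simp
      have h3 : ∃ i j : Fin k, r + sh i = s + sh j := by
        by_contra h4
        push Not at h4
        apply hi
        show Function.Injective (Fin.append (fun i => r + sh i) (fun i => s + sh i))
        rw [Fin.append_injective_iff]
        refine ⟨fun a b hab => hinj (by simpa using hab), fun a b hab => hinj (by simpa using hab), fun a b => h4 a b⟩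
      obtain ⟨i, j, hij⟩ := h3
      have h4 : 1 ≤ bad r s := by
        have h5 : (if r + sh i = s + sh j then (1 : ℝ) else 0) ≤ ∑ j : Fin k, if r + sh i = s + sh j then (1 : ℝ) else 0 :=
          Finset.single_le_sum (f := fun j => if r + sh i = s + sh j then (1 : ℝ) else 0)
            (fun j _ => by split_ifs <;> norm_num) (Finset.mem_univ j)
        have h6 : (∑ j : Fin k, if r + sh i = s + sh j then (1 : ℝ) else 0) ≤ bad r s :=
          Finset.single_le_sum (f := fun i => ∑ j : Fin k, if r + sh i = s + sh j then (1 : ℝ) else 0)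
            (fun i _ => Finset.sum_nonneg fun j _ => by split_ifs <;> norm_num) (Finset.mem_univ i)
        rw [if_pos hij] at h5
        linarith
      have h7 : (0 : ℝ) ≤ N := Nat.cast_nonneg N
      have h8 : 0 ≤ ε ^ 2 / 8 * (N : ℝ) := by positivity
      nlinarith
  have hbad : ∑ r ∈ range H, ∑ s ∈ range H, bad r s ≤ (k : ℝ) ^ 2 * H := by
    have h1 : ∑ r ∈ range H, ∑ s ∈ range H, bad r s =
        ∑ i : Fin k, ∑ j : Fin k, ∑ r ∈ range H, ∑ s ∈ range H, if r + sh i = s + sh j then (1 : ℝ) else 0 := by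
      show ∑ r ∈ range H, ∑ s ∈ range H, ∑ i : Fin k, ∑ j : Fin k, (if r + sh i = s + sh j then (1 : ℝ) else 0) = _
      rw [Finset.sum_congr rfl fun r _ => Finset.sum_comm, Finset.sum_comm]
      refine Finset.sum_congr rfl fun i _ => ?_
      rw [Finset.sum_congr rfl fun r _ => Finset.sum_comm, Finset.sum_comm]
    rw [h1]
    have h2 : ∀ i j : Fin k, (∑ r ∈ range H, ∑ s ∈ range H, if r + sh i = s + sh j then (1 : ℝ) else 0) ≤ H := by
      intro i j
      have h3 : ∀ r ∈ range H, (∑ s ∈ range H, if r + sh i = s + sh j then (1 : ℝ) else 0) ≤ 1 := by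
        intro r _
        rw [Finset.sum_ite, Finset.sum_const_zero, add_zero, Finset.sum_const, nsmul_eq_mul, mul_one]
        have h4 : ((range H).filter fun s => r + sh i = s + sh j).card ≤ 1 := by
          rw [Finset.card_le_one]
          intro a ha b hb
          rw [Finset.mem_filter] at ha hb
          omega
        exact_mod_cast h4
      refine (Finset.sum_le_sum h3).trans ?_
      simp
    refine (Finset.sum_le_sum fun i _ => Finset.sum_le_sum fun j _ => h2 i j).trans ?_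
    rw [Finset.sum_const, Finset.sum_const, Finset.card_univ, Fintype.card_fin]
    simp only [nsmul_eq_mul]
    apply le_of_eq
    ring
  have key := vdc_ineq52 B hB N H _ hE
  have hN0 : (0 : ℝ) ≤ N := Nat.cast_nonneg N
  have htot : ∑ r ∈ range H, ∑ s ∈ range H, (ε ^ 2 / 8 * (N : ℝ) + bad r s * N) ≤ (H : ℝ) ^ 2 * (ε ^ 2 / 4) * N := by
    simp only [Finset.sum_add_distrib, ← Finset.sum_mul, Finset.sum_const, Finset.card_range, nsmul_eq_mul]
    have h1 : (k : ℝ) ^ 2 ≤ ε ^ 2 / 8 * H := by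
      rwa [div_le_iff₀ hHr] at hH
    have h2 : (∑ r ∈ range H, ∑ s ∈ range H, bad r s) * (N : ℝ) ≤ ((k : ℝ) ^ 2 * H) * N :=
      mul_le_mul_of_nonneg_right hbad hN0
    have h3 : ((k : ℝ) ^ 2 * H) * N ≤ (ε ^ 2 / 8 * H * H) * N := by
      refine mul_le_mul_of_nonneg_right ?_ hN0
      nlinarith
    nlinarith
  have hsq : Real.sqrt (N * ∑ r ∈ range H, ∑ s ∈ range H, (ε ^ 2 / 8 * (N : ℝ) + bad r s * N)) ≤ H * (ε / 2) * N := by
    refine Real.sqrt_le_iff.2 ⟨by positivity, ?_⟩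
    calc (N : ℝ) * ∑ r ∈ range H, ∑ s ∈ range H, (ε ^ 2 / 8 * (N : ℝ) + bad r s * N)
        ≤ N * ((H : ℝ) ^ 2 * (ε ^ 2 / 4) * N) := mul_le_mul_of_nonneg_left htot hN0
      _ = (H * (ε / 2) * N) ^ 2 := by ring
  rw [hsum]
  have h1 : (H : ℝ) * ‖∑ n ∈ range N, B (n + 1)‖ ≤ H * (ε * N) := by
    refine key.trans ?_
    have h2 : 4 * (H : ℝ) ≤ ε * N := by
      rw [div_lt_iff₀ hε] at hNr
      linarith
    have h3 : (H : ℝ) ^ 2 * 2 ≤ H * (ε / 2 * N) := by
      nlinarith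
    linarith
  exact le_of_mul_le_mul_left h1 hHr

end Pool.Agent.Helper66.CW
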